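import Pool.Agent.Q17.OS.Stm

/-! Project OS, job ADJ: inversion on finite posets. -/

set_option autoImplicit false

open scoped Classical

noncomputable section

namespace Pool.Agent.Q111.OS

open Pool.Agent.Q17.OS

section

variable {R : Type} [CommRing R] {X : Type} [Fintype X] [PartialOrder X]

theorem sum_split (f : X → R) (x : X) :
    (∑ x', if x' ≤ x then f x' else 0) = f x + ∑ x', if x' < x then f x' else 0 := by
  have h1 : ∀ x', (if x' ≤ x then f x' else 0) =
      (if x' = x then f x' else 0) + (if x' < x then f x' else 0) := by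
    intro x'
    by_cases h : x' = x
    · subst h
      rw [if_pos le_rfl, if_pos rfl, if_neg (lt_irrefl _), add_zero]
    · by_cases h2 : x' ≤ x
      · rw [if_pos h2, if_neg h, if_pos (lt_of_le_of_ne h2 h), zero_add]
      · rw [if_neg h2, if_neg h, if_neg fun h3 => h2 h3.le, zero_add]
  rw [Finset.sum_congr rfl fun x' _ => h1 x', Finset.sum_add_distrib, Finset.sum_ite_eq' Finset.univ,
    if_pos (Finset.mem_univ x)]

/-- the inverse -/
def inv (F : X → R) : X → R :=
  (wellFounded_lt (α := X)).fix fun x rec => F x - ∑ x', if h : x' < x then rec x' h else 0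

theorem inv_eq (F : X → R) (x : X) :
    inv F x = F x - ∑ x', if x' < x then inv F x' else 0 := by
  unfold inv
  rw [WellFounded.fix_eq]
  congr 1

theorem uniq {a b : X → R}
    (h : ∀ y, (∑ y', if y' ≤ y then a y' else 0) = ∑ y', if y' ≤ y then b y' else 0) : a = b := by
  funext y
  induction y using (wellFounded_lt (α := X)).induction with
  | _ y ih =>
    have h1 := h y
    rw [sum_split, sum_split] at h1
    have h2 : (∑ x', if x' < y then a x' else 0) = ∑ x', if x' < y then b x' else 0 := by
      refine Finset.sum_congr rfl fun x' _ => ?_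
      by_cases h3 : x' < y
      · rw [if_pos h3, if_pos h3, ih x' h3]
      · rw [if_neg h3, if_neg h3]
    rw [h2] at h1
    exact add_right_cancel h1

end

theorem t_ADJ : S_ADJ := by
  intro R _ X _ _
  refine ⟨fun F => ⟨inv F, fun x => ?_⟩, ?_⟩
  · rw [sum_split, inv_eq F x]
    ring
  · intro Y _ _ κ ι hadj F f g hf hg w
    set h : Y → R := fun y => ∑ x, if κ x = y then f x else 0 with hh
    have h1 : h = g := by
      apply uniq
      intro y
      rw [← hg y, hf (ι y)]
      have h2 : (∑ y', if y' ≤ y then h y' else 0) =
          ∑ y', ∑ x, if y' ≤ y then (if κ x = y' then f x else 0) else 0 := by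
        refine Finset.sum_congr rfl fun y' _ => ?_
        by_cases h3 : y' ≤ y
        · rw [if_pos h3, hh]
          refine Finset.sum_congr rfl fun x _ => ?_
          rw [if_pos h3]
        · rw [if_neg h3]
          refine (Finset.sum_eq_zero fun x _ => ?_).symm
          rw [if_neg h3]
      rw [h2, Finset.sum_comm]
      refine Finset.sum_congr rfl fun x _ => ?_
      have h4 : ∀ y', (if y' ≤ y then (if κ x = y' then f x else 0) else 0) =
          if κ x = y' then (if κ x ≤ y then f x else 0) else 0 := by
        intro y'
        by_cases h5 : κ x = y'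
        · rw [if_pos h5, if_pos h5, h5]
        · rw [if_neg h5, if_neg h5, ite_self]
      rw [Finset.sum_congr rfl fun y' _ => h4 y', Finset.sum_ite_eq Finset.univ,
        if_pos (Finset.mem_univ _)]
      by_cases h6 : κ x ≤ y
      · rw [if_pos h6, if_pos ((hadj x y).1 h6)]
      · rw [if_neg h6, if_neg fun h7 => h6 ((hadj x y).2 h7)]
    rw [← h1]
    have h2 : ∀ y, h y * w y = ∑ x, if κ x = y then f x * w (κ x) else 0 := by
      intro y
      rw [hh, Finset.sum_mul]
      refine Finset.sum_congr rfl fun x _ => ?_
      by_cases h3 : κ x = y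
      · rw [if_pos h3, if_pos h3, h3]
      · rw [if_neg h3, if_neg h3, zero_mul]
    rw [Finset.sum_congr rfl fun y _ => h2 y, Finset.sum_comm]
    refine Finset.sum_congr rfl fun x _ => ?_
    rw [Finset.sum_ite_eq Finset.univ, if_pos (Finset.mem_univ _)]

end Pool.Agent.Q111.OS
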