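import Pool.Agent.Q71.OS.Defs

/-! # Project OS, job OS3 -/

set_option autoImplicit false

namespace Pool.Agent.Q111.OS

open Finset Pool.Agent.Q71.OS

open Classical in
theorem sum_block {κ Q : Type} [Fintype κ] [Fintype Q] (G : κ → Set Q) (U : Finset κ) :
    ∑ π : κ → Q, ∏ n ∈ U, (if π n ∈ G n then (1 : ℝ) else 0) =
      ∏ n : κ, (if n ∈ U then (Nat.card (G n) : ℝ) else (Fintype.card Q : ℝ)) := by
  have h1 : ∀ n : κ, (if n ∈ U then (Nat.card (G n) : ℝ) else (Fintype.card Q : ℝ)) =
      ∑ q : Q, (if n ∈ U then (if q ∈ G n then (1 : ℝ) else 0) else 1) := by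
    intro n
    split_ifs with h
    · rw [sum_boole, Nat.card_eq_fintype_card, Fintype.card_subtype]
    · rw [sum_const, nsmul_eq_mul, mul_one, card_univ]
  rw [prod_congr rfl fun n _ => h1 n, prod_univ_sum, Fintype.piFinset_univ]
  apply sum_congr rfl
  intro π _
  rw [prod_ite_mem, univ_inter]

theorem t_Ind : StmInd := by
  intro κ Q _ _ M r b B G hb hdisj hr hG hQ
  classical
  obtain ⟨q, hq⟩ : ∃ q : ℝ, q = Fintype.card Q := ⟨_, rfl⟩
  have hqpos : 0 < q := by
    rw [hq]
    exact_mod_cast Fintype.card_pos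
  obtain ⟨p, hp⟩ : ∃ p : κ → ℝ, p = fun n => (Nat.card (G n) : ℝ) / q := ⟨_, rfl⟩
  obtain ⟨P, hP⟩ : ∃ P : Fin M → ℝ, P = fun i => ∏ n ∈ B i, p n := ⟨_, rfl⟩
  have hbr : (0 : ℝ) < b := by exact_mod_cast hb
  have hp1 : ∀ n, 1 / (b : ℝ) ≤ p n := by
    intro n
    rw [hp]
    simp only
    rw [div_le_div_iff₀ hbr hqpos, one_mul, hq]
    have := hG n
    rw [Nat.card_eq_fintype_card (α := Q)] at this
    have h2 : (Fintype.card Q : ℝ) ≤ b * Nat.card (G n) := by exact_mod_cast this
    linarith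
  have hp2 : ∀ n, p n ≤ 1 := by
    intro n
    rw [hp]
    simp only
    rw [div_le_one hqpos, hq]
    have : Nat.card (G n) ≤ Nat.card Q :=
      Nat.card_le_card_of_injective (fun x : G n => (x : Q)) Subtype.val_injective
    rw [Nat.card_eq_fintype_card (α := Q)] at this
    exact_mod_cast this
  have hp0 : ∀ n, 0 ≤ p n := fun n => le_trans (by positivity) (hp1 n)
  have hP1 : ∀ i, 1 / (b : ℝ) ^ r ≤ P i := by
    intro i
    rw [hP]
    simp only
    calc 1 / (b : ℝ) ^ r ≤ 1 / (b : ℝ) ^ (B i).card := by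
          apply one_div_le_one_div_of_le (by positivity)
          exact pow_le_pow_right₀ (by exact_mod_cast hb) (hr i)
      _ = ∏ _n ∈ B i, (1 / (b : ℝ)) := by rw [prod_const, one_div_pow]
      _ ≤ _ := prod_le_prod (fun _ _ => by positivity) fun n _ => hp1 n
  have hP2 : ∀ i, P i ≤ 1 := by
    intro i
    rw [hP]
    exact prod_le_one (fun n _ => hp0 n) fun n _ => hp2 n
  -- the count
  have hcount : (Nat.card {π : κ → Q // ∀ i, ∃ n ∈ B i, π n ∉ G n} : ℝ) =
      ∑ π : κ → Q, ∏ i : Fin M, (-(∏ n ∈ B i, (if π n ∈ G n then (1 : ℝ) else 0)) + 1) := by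
    rw [Nat.card_eq_fintype_card, Fintype.card_subtype, card_filter, Nat.cast_sum]
    apply sum_congr rfl
    intro π _
    have h1 : ∀ i, (-(∏ n ∈ B i, (if π n ∈ G n then (1 : ℝ) else 0)) + 1) =
        if ∃ n ∈ B i, π n ∉ G n then 1 else 0 := by
      intro i
      split_ifs with h
      · obtain ⟨n, hn, hn'⟩ := h
        rw [prod_eq_zero hn (if_neg hn')]
        ring
      · push Not at h
        rw [prod_eq_one fun n hn => if_pos (h n hn)]
        ring
    rw [prod_congr rfl fun i _ => h1 i]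
    split_ifs with h
    · rw [prod_eq_one fun i _ => if_pos (h i)]
      norm_num
    · push Not at h
      obtain ⟨i, hi⟩ := h
      rw [prod_eq_zero (mem_univ i) (if_neg (by push Not; exact hi))]
      norm_num
  have hmain : ∑ π : κ → Q, ∏ i : Fin M, (-(∏ n ∈ B i, (if π n ∈ G n then (1 : ℝ) else 0)) + 1) =
      (Nat.card (κ → Q) : ℝ) * ∏ i, (1 - P i) := by
    have h1 : ∀ π : κ → Q,
        ∏ i : Fin M, (-(∏ n ∈ B i, (if π n ∈ G n then (1 : ℝ) else 0)) + 1) =
        ∑ t ∈ (univ : Finset (Fin M)).powerset, (-1) ^ t.card *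
          ∏ n ∈ t.biUnion B, (if π n ∈ G n then (1 : ℝ) else 0) := by
      intro π
      rw [prod_add]
      apply sum_congr rfl
      intro t _
      rw [prod_const_one, mul_one, prod_neg, prod_biUnion]
      intro i _ i' _ hne
      exact hdisj i i' hne
    rw [sum_congr rfl fun π _ => h1 π, sum_comm]
    have h2 : ∀ i, (1 - P i) = (-(P i) + 1) := fun i => by ring
    rw [prod_congr rfl fun i _ => h2 i, prod_add, mul_sum]
    apply sum_congr rfl
    intro t _
    rw [← mul_sum, sum_block, prod_const_one, mul_one, prod_neg]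
    have h3 : ∏ n : κ, (if n ∈ t.biUnion B then (Nat.card (G n) : ℝ) else (Fintype.card Q : ℝ)) =
        ∏ n : κ, (q * if n ∈ t.biUnion B then p n else 1) := by
      apply prod_congr rfl
      intro n _
      split_ifs
      · rw [hp]
        simp only
        field_simp
      · rw [hq, mul_one]
    rw [h3, prod_mul_distrib, prod_const, prod_ite_mem, univ_inter, prod_biUnion]
    · rw [hP, Nat.card_eq_fintype_card, Fintype.card_fun, Nat.cast_pow, ← hq, card_univ]
      ring
    · intro i _ i' _ hne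
      exact hdisj i i' hne
  rw [hcount, hmain, mul_comm]
  apply mul_le_mul_of_nonneg_right _ (Nat.cast_nonneg _)
  calc ∏ i, (1 - P i) ≤ ∏ _i : Fin M, (1 - 1 / (b : ℝ) ^ r) := by
        apply prod_le_prod
        · intro i _
          linarith [hP2 i]
        · intro i _
          linarith [hP1 i]
    _ = _ := by rw [prod_const, card_univ, Fintype.card_fin]

/-! ### OS5 -/

/-- the original string -/
noncomputable def pre {b m : ℕ} (π : (i : Fin m) → (Fin (i : ℕ) → Fin b) → Equiv.Perm (Fin b))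
    (w : ℕ → Fin b) (i : ℕ) : Fin b :=
  if h : i < m then (π ⟨i, h⟩ (fun i' : Fin i => pre π w i'))⁻¹ (w i) else w i
termination_by i
decreasing_by exact i'.2

theorem pre_eq {b m : ℕ} (π : (i : Fin m) → (Fin (i : ℕ) → Fin b) → Equiv.Perm (Fin b))
    (w : ℕ → Fin b) (i : ℕ) (h : i < m) :
    pre π w i = (π ⟨i, h⟩ (fun i' : Fin i => pre π w i'))⁻¹ (w i) := by
  rw [pre, dif_pos h]

theorem scr_iff {b m : ℕ} (π : (i : Fin m) → (Fin (i : ℕ) → Fin b) → Equiv.Perm (Fin b))
    (w : ℕ → Fin b) (x : Fin m → Fin b) (A : ℕ) (hA : A ≤ m) :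
    (∀ i, ∀ h : i < A, π ⟨i, h.trans_le hA⟩
      (fun i' : Fin i => x (Fin.castLE (h.trans_le hA).le i')) (x ⟨i, h.trans_le hA⟩) = w i) ↔
    ∀ i, ∀ h : i < A, x ⟨i, h.trans_le hA⟩ = pre π w i := by
  induction A with
  | zero => simp
  | succ A ih =>
    have ih' := ih (by omega)
    constructor
    · intro h i hi
      have h1 := ih'.1 (fun i hi => h i (by omega))
      rcases Nat.lt_succ_iff_lt_or_eq.1 hi with hi' | rfl
      · exact h1 i hi'
      · have h2 := h i hi
        have h3 : (fun i' : Fin i => x (Fin.castLE (hi.trans_le hA).le i')) =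
            fun i' : Fin i => pre π w i' := by
          funext i'
          exact h1 i' i'.2
        rw [h3] at h2
        rw [pre_eq π w i (hi.trans_le hA), ← h2]
        simp
    · intro h i hi
      have h1 := ih'.2 (fun i hi => h i (by omega))
      rcases Nat.lt_succ_iff_lt_or_eq.1 hi with hi' | rfl
      · exact h1 i hi'
      · have h3 : (fun i' : Fin i => x (Fin.castLE (hi.trans_le hA).le i')) =
            fun i' : Fin i => pre π w i' := by
          funext i'
          exact h i' (by omega)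
        rw [h3, h i hi, pre_eq π w i (hi.trans_le hA)]
        simp

theorem t_NetScr : StmNetScr := by
  intro b m D t g π hb hnet
  classical
  obtain ⟨-, hcnt⟩ := hnet
  have hlt : ∀ (g : Arr b m D) μ j i, toDg g μ j i < b := by
    intro g μ j i
    unfold toDg
    split_ifs
    · exact (g μ j _).2
    · omega
  refine ⟨hlt _, ?_⟩
  intro a v ha hv
  rw [← hcnt a (fun j i => (pre (π j) (fun i => ⟨v j i, hv j i⟩) i : ℕ)) ha
    (fun j i => (pre (π j) (fun i => ⟨v j i, hv j i⟩) i).2)]
  congr 1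
  apply filter_congr
  intro μ _
  apply forall_congr'
  intro j
  have haj : a j ≤ m := by
    have := single_le_sum (f := a) (fun j _ => Nat.zero_le _) (mem_univ j)
    omega
  have h1 := scr_iff (π j) (fun i => ⟨v j i, hv j i⟩) (g μ j) (a j) haj
  have h2 : (∀ i < a j, toDg (scrAll π g) μ j i = v j i) ↔
      ∀ i, ∀ h : i < a j, π j ⟨i, h.trans_le haj⟩
        (fun i' : Fin i => g μ j (Fin.castLE (h.trans_le haj).le i')) (g μ j ⟨i, h.trans_le haj⟩) =
          (⟨v j i, hv j i⟩ : Fin b) := by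
    apply forall_congr'
    intro i
    apply forall_congr'
    intro h
    unfold toDg scrAll
    rw [dif_pos (h.trans_le haj), Fin.ext_iff]
  have h3 : (∀ i < a j, toDg g μ j i = (pre (π j) (fun i => ⟨v j i, hv j i⟩) i : ℕ)) ↔
      ∀ i, ∀ h : i < a j, g μ j ⟨i, h.trans_le haj⟩ =
        pre (π j) (fun i => ⟨v j i, hv j i⟩) i := by
    apply forall_congr'
    intro i
    apply forall_congr'
    intro h
    unfold toDg
    rw [dif_pos (h.trans_le haj), Fin.ext_iff]
  rw [h2, h3]
  exact h1

end Pool.Agent.Q111.OS
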