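import Pool.Agent.Q17.OS.Stm
import Pool.Agent.Q17.TC.All
import Pool.Agent.H254R3.IN.Idem

/-! Project OS, job PBK: blocks of direct products. -/

set_option autoImplicit false

open scoped Classical

noncomputable section

namespace Pool.Agent.Q111.OS

open Pool.Agent.Helper884
open Pool.Agent.H254R3.IN
open Pool.Agent.Q17.TC (t_IRN t_HOM)
open Pool.Agent.Q17.OS (S_PBK PB)

section tp

variable {A C : Type} [Group A] [Group C]

/-- the product of two functions -/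
def tp (χ : A → ℂ) (ψ : C → ℂ) (x : A × C) : ℂ := χ x.1 * ψ x.2

variable [Fintype A] [Fintype C]

theorem B_tp (χ χ' : A → ℂ) (ψ ψ' : C → ℂ) :
    IC.B (tp χ ψ) (tp χ' ψ') = IC.B χ χ' * IC.B ψ ψ' := by
  unfold IC.B tp
  rw [Fintype.sum_prod_type, Nat.card_prod, Nat.cast_mul, mul_inv]
  have h : ∀ a : A, (∑ c : C, χ a * ψ c * (χ' a⁻¹ * ψ' c⁻¹)) =
      (χ a * χ' a⁻¹) * ∑ c : C, ψ c * ψ' c⁻¹ := by
    intro a
    rw [Finset.mul_sum]
    exact Finset.sum_congr rfl fun c _ => by ring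
  have h2 : (∑ a : A, ∑ c : C, χ (a, c).1 * ψ (a, c).2 * (χ' (a, c)⁻¹.1 * ψ' (a, c)⁻¹.2)) =
      ∑ a : A, (χ a * χ' a⁻¹) * ∑ c : C, ψ c * ψ' c⁻¹ :=
    Finset.sum_congr rfl fun a _ => h a
  rw [h2, ← Finset.sum_mul]
  ring

theorem irr_tp {χ : A → ℂ} {ψ : C → ℂ} (h1 : IsIrr χ) (h2 : IsIrr ψ) : IsIrr (tp χ ψ) := by
  have e1 := IC.B_irr (chi := χ) (psi := χ) h1 h1
  have e2 := IC.B_irr (chi := ψ) (psi := ψ) h2 h2
  rw [if_pos rfl] at e1 e2
  have e3 := B_tp χ χ ψ ψ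
  rw [e1, e2, mul_one] at e3
  obtain ⟨V, _, _, _, ρ, _, rfl⟩ := h1
  obtain ⟨W, _, _, _, σ, _, rfl⟩ := h2
  let τ : Representation ℂ (A × C) (TensorProduct ℂ V W) :=
    Representation.tprod (ρ.comp (MonoidHom.fst A C)) (σ.comp (MonoidHom.snd A C))
  have hτ : τ.character = tp ρ.character σ.character := by
    have h := Representation.char_tensor (ρ.comp (MonoidHom.fst A C))
      (σ.comp (MonoidHom.snd A C))
    exact h
  rw [← hτ] at e3 ⊢
  exact t_IRN t_HOM (A × C) _ τ e3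

omit [Fintype A] [Fintype C] in
theorem tp_one (χ : A → ℂ) (ψ : C → ℂ) : tp χ ψ 1 = χ 1 * ψ 1 := rfl

theorem irr_isClass {θ : A → ℂ} (h : IsIrr θ) : IC.IsClass θ := fun g y => h.conj g y

theorem exists_tp {θ : A × C → ℂ} (hθ : IsIrr θ) :
    ∃ (χ : A → ℂ) (ψ : C → ℂ), IsIrr χ ∧ IsIrr ψ ∧ θ = tp χ ψ := by
  by_contra hcon
  push Not at hcon
  have h0 : ∀ (χ : A → ℂ) (ψ : C → ℂ), IsIrr χ → IsIrr ψ →
      ∑ x : A × C, θ x * tp χ ψ x⁻¹ = 0 := by
    intro χ ψ h1 h2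
    have h3 := IC.B_irr (chi := θ) (psi := tp χ ψ) hθ (irr_tp h1 h2)
    rw [if_neg (hcon χ ψ h1 h2)] at h3
    unfold IC.B at h3
    rcases mul_eq_zero.1 h3 with h | h
    · exact absurd h (inv_ne_zero IC.cardG_ne)
    · exact h
  have h1 : ∀ ψ : C → ℂ, IsIrr ψ → ∀ a : A, ∑ c : C, θ (a, c) * ψ c⁻¹ = 0 := by
    intro ψ hψ
    have h2 := IC.class_eq_zero (fun a : A => ∑ c : C, θ (a, c) * ψ c⁻¹) (fun g y => by
        refine Finset.sum_congr rfl fun c _ => ?_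
        have h3 := hθ.conj ((g, c) : A × C) (y, 1)
        have h4 : ((y, 1) : A × C) * (g, c) * (y, 1)⁻¹ = (y * g * y⁻¹, c) := by
          ext
          · rfl
          · simp
        rw [h4] at h3
        rw [h3]) (fun χ hχ => by
        have h3 := h0 χ ψ hχ hψ
        rw [Fintype.sum_prod_type] at h3
        unfold IC.B
        have h4 : (∑ a : A, (∑ c : C, θ (a, c) * ψ c⁻¹) * χ a⁻¹) =
            ∑ a : A, ∑ c : C, θ (a, c) * tp χ ψ (a, c)⁻¹ := by
          refine Finset.sum_congr rfl fun a _ => ?_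
          rw [Finset.sum_mul]
          refine Finset.sum_congr rfl fun c _ => ?_
          change θ (a, c) * ψ c⁻¹ * χ a⁻¹ = θ (a, c) * (χ a⁻¹ * ψ c⁻¹)
          ring
        rw [h4, h3, mul_zero])
    intro a
    exact congrFun h2 a
  have h2 : (fun c : C => θ ((1 : A), c)) = 0 := by
    refine IC.class_eq_zero _ (fun g y => ?_) (fun ψ hψ => ?_)
    · have h3 := hθ.conj (((1 : A), g) : A × C) (1, y)
      have h4 : (((1 : A), y) : A × C) * (1, g) * (1, y)⁻¹ = (1, y * g * y⁻¹) := by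
        ext
        · simp
        · rfl
      rw [h4] at h3
      exact h3
    · unfold IC.B
      rw [h1 ψ hψ 1, mul_zero]
  exact hθ.one_ne (congrFun h2 1)

theorem omega_one {χ : A → ℂ} (h : IsIrr χ) : omega χ 1 = 1 := by
  unfold omega
  have h1 : Nat.card {y : A // IsConj 1 y} = 1 := by
    rw [Nat.card_eq_one_iff_unique]
    refine ⟨⟨fun a b => ?_⟩, ⟨⟨1, IsConj.refl 1⟩⟩⟩
    ext
    rw [isConj_one_right.1 a.2, isConj_one_right.1 b.2]
  rw [h1, Nat.cast_one, one_mul, div_self h.one_ne]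

omit [Fintype A] [Fintype C] in
theorem isConj_prod (x y : A × C) : IsConj x y ↔ IsConj x.1 y.1 ∧ IsConj x.2 y.2 := by
  simp only [isConj_iff]
  constructor
  · rintro ⟨c, rfl⟩
    exact ⟨⟨c.1, rfl⟩, ⟨c.2, rfl⟩⟩
  · rintro ⟨⟨a, ha⟩, ⟨c, hc⟩⟩
    exact ⟨(a, c), Prod.ext ha hc⟩

omit [Fintype A] [Fintype C] in
theorem omega_tp (χ : A → ℂ) (ψ : C → ℂ) (x : A × C) :
    omega (tp χ ψ) x = omega χ x.1 * omega ψ x.2 := by
  unfold omega
  have h : Nat.card {y : A × C // IsConj x y} =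
      Nat.card {y : A // IsConj x.1 y} * Nat.card {y : C // IsConj x.2 y} := by
    rw [← Nat.card_prod]
    exact Nat.card_congr
      { toFun := fun y => (⟨y.1.1, ((isConj_prod x y.1).1 y.2).1⟩,
          ⟨y.1.2, ((isConj_prod x y.1).1 y.2).2⟩)
        invFun := fun y => ⟨(y.1.1, y.2.1), (isConj_prod x (y.1.1, y.2.1)).2 ⟨y.1.2, y.2.2⟩⟩
        left_inv := fun y => rfl
        right_inv := fun y => rfl }
  rw [h, tp_one, Nat.cast_mul]
  unfold tp
  rw [div_mul_div_comm]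
  ring

/-- the products of the members -/
def TB (B₁ : Set (A → ℂ)) (B₂ : Set (C → ℂ)) : Set (A × C → ℂ) :=
  {θ | ∃ χ ∈ B₁, ∃ ψ ∈ B₂, θ = tp χ ψ}

variable {O : ValuationSubring ℂ}

theorem mem_block {B : Set (A → ℂ)} (hB : IsBlock O B) {χ₁ χ : A → ℂ} (h1 : χ₁ ∈ B)
    (h : IsIrr χ) (hx : ∀ x, red O (omega χ x) = red O (omega χ₁ x)) : χ ∈ B := by
  by_contra hcon
  obtain ⟨x, hx'⟩ := hB.exists_ne h1 h hcon
  exact hx' (hx x).symm

theorem block_TB {B₁ : Set (A → ℂ)} {B₂ : Set (C → ℂ)} (h1 : IsBlock O B₁) (h2 : IsBlock O B₂) :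
    IsBlock O (TB B₁ B₂) := by
  obtain ⟨χ₀, hχ₀⟩ := h1.nonempty
  obtain ⟨ψ₀, hψ₀⟩ := h2.nonempty
  have i1 := h1.irr χ₀ hχ₀
  have i2 := h2.irr ψ₀ hψ₀
  refine ⟨tp χ₀ ψ₀, irr_tp i1 i2, ?_⟩
  ext θ
  constructor
  · rintro ⟨χ, hχ, ψ, hψ, rfl⟩
    have j1 := h1.irr χ hχ
    have j2 := h2.irr ψ hψ
    refine ⟨irr_tp j1 j2, fun x => ?_⟩
    rw [← red_eq_iff ((irr_tp j1 j2).omega_mem O x) ((irr_tp i1 i2).omega_mem O x), omega_tp,
      omega_tp, red_mul (j1.omega_mem O _) (j2.omega_mem O _),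
      red_mul (i1.omega_mem O _) (i2.omega_mem O _), h1.red_eq hχ hχ₀, h2.red_eq hψ hψ₀]
  · rintro ⟨hθ, hx⟩
    obtain ⟨χ, ψ, j1, j2, rfl⟩ := exists_tp hθ
    have key : ∀ x : A × C, red O (omega χ x.1) * red O (omega ψ x.2) =
        red O (omega χ₀ x.1) * red O (omega ψ₀ x.2) := by
      intro x
      have h3 := hx x
      rw [← red_eq_iff ((irr_tp j1 j2).omega_mem O x) ((irr_tp i1 i2).omega_mem O x), omega_tp,
        omega_tp, red_mul (j1.omega_mem O _) (j2.omega_mem O _),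
        red_mul (i1.omega_mem O _) (i2.omega_mem O _)] at h3
      exact h3
    refine ⟨χ, mem_block h1 hχ₀ j1 fun x => ?_, ψ, mem_block h2 hψ₀ j2 fun x => ?_, rfl⟩
    · have h3 := key (x, 1)
      simp only [omega_one j2, omega_one i2, red_one, mul_one] at h3
      exact h3
    · have h3 := key (1, x)
      simp only [omega_one j1, omega_one i1, red_one, one_mul] at h3
      exact h3

theorem tp_inj {χ χ' : A → ℂ} {ψ ψ' : C → ℂ} (h1 : IsIrr χ) (h2 : IsIrr χ') (h3 : IsIrr ψ)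
    (h4 : IsIrr ψ') (h : tp χ ψ = tp χ' ψ') : χ = χ' ∧ ψ = ψ' := by
  have e := B_tp χ χ' ψ ψ'
  rw [← h, IC.B_irr (irr_tp h1 h3) (irr_tp h1 h3), if_pos rfl, IC.B_irr h1 h2,
    IC.B_irr h3 h4] at e
  constructor
  · by_contra hne
    rw [if_neg hne, zero_mul] at e
    exact one_ne_zero e
  · by_contra hne
    rw [if_neg hne, mul_zero] at e
    exact one_ne_zero e

theorem coeff_TB {B₁ : Set (A → ℂ)} {B₂ : Set (C → ℂ)} (h1 : IsBlock O B₁) (h2 : IsBlock O B₂)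
    (x : A × C) : blockCoeff (TB B₁ B₂) x = blockCoeff B₁ x.1 * blockCoeff B₂ x.2 := by
  have h3 := block_TB h1 h2
  rw [blockCoeff_eq h3.irr, blockCoeff_eq h1.irr, blockCoeff_eq h2.irr, Nat.card_prod,
    Nat.cast_mul, mul_inv]
  have h4 : (IC.Irr (A × C)).filter (· ∈ TB B₁ B₂) =
      (((IC.Irr A).filter (· ∈ B₁)) ×ˢ ((IC.Irr C).filter (· ∈ B₂))).image
        (fun q => tp q.1 q.2) := by
    ext θ
    simp only [Finset.mem_filter, Finset.mem_image, Finset.mem_product, IC.mem_Irr, Prod.exists]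
    constructor
    · rintro ⟨-, χ, hχ, ψ, hψ, rfl⟩
      exact ⟨χ, ψ, ⟨⟨h1.irr χ hχ, hχ⟩, ⟨h2.irr ψ hψ, hψ⟩⟩, rfl⟩
    · rintro ⟨χ, ψ, ⟨⟨i1, hχ⟩, ⟨i2, hψ⟩⟩, rfl⟩
      exact ⟨irr_tp i1 i2, χ, hχ, ψ, hψ, rfl⟩
  rw [h4, Finset.sum_image, Finset.sum_product]
  · have h5 : (∑ χ ∈ (IC.Irr A).filter (· ∈ B₁), ∑ ψ ∈ (IC.Irr C).filter (· ∈ B₂),
        tp χ ψ 1 * tp χ ψ x⁻¹) = (∑ χ ∈ (IC.Irr A).filter (· ∈ B₁), χ 1 * χ x.1⁻¹) *
        ∑ ψ ∈ (IC.Irr C).filter (· ∈ B₂), ψ 1 * ψ x.2⁻¹ := by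
      rw [Finset.sum_mul_sum]
      refine Finset.sum_congr rfl fun χ _ => Finset.sum_congr rfl fun ψ _ => ?_
      change χ 1 * ψ 1 * (χ x.1⁻¹ * ψ x.2⁻¹) = _
      ring
    rw [h5]
    ring
  · rintro ⟨χ, ψ⟩ hq ⟨χ', ψ'⟩ hq' heq
    simp only [Finset.coe_product, Finset.coe_filter, Set.mem_prod, Set.mem_ofPred_eq,
      IC.mem_Irr] at hq hq'
    obtain ⟨e1, e2⟩ := tp_inj hq.1.1 hq'.1.1 hq.2.1 hq'.2.1 heq
    rw [e1, e2]

end tp

section syl

variable {G : Type} [Group G] [Finite G] {p : ℕ} [Fact p.Prime]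

theorem syl_iff (C D : Subgroup G) : (∃ P : Sylow p C, D = (P : Subgroup C).map C.subtype) ↔
    D ≤ C ∧ Nat.card D = p ^ (Nat.card C).factorization p := by
  constructor
  · rintro ⟨P, rfl⟩
    refine ⟨Subgroup.map_subtype_le _, ?_⟩
    rw [← P.card_eq_multiplicity]
    exact Nat.card_congr ((P : Subgroup C).equivMapOfInjective C.subtype
      C.subtype_injective).toEquiv.symm
  · rintro ⟨h1, h2⟩
    have h3 : Nat.card (D.subgroupOf C) = p ^ (Nat.card C).factorization p := by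
      rw [← h2]
      exact Nat.card_congr (Subgroup.subgroupOfEquivOfLe h1).toEquiv
    refine ⟨Sylow.ofCard (D.subgroupOf C) h3, ?_⟩
    exact (Subgroup.map_subgroupOf_eq_of_le h1).symm

end syl

section defect

variable {A C : Type} [Group A] [Group C] [Fintype A] [Fintype C] {p : ℕ} [Fact p.Prime]
  {O : ValuationSubring ℂ}

theorem card_prod_sub (D₁ : Subgroup A) (D₂ : Subgroup C) :
    Nat.card (D₁.prod D₂) = Nat.card D₁ * Nat.card D₂ := by
  rw [← Nat.card_prod]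
  exact Nat.card_congr (Subgroup.prodEquiv D₁ D₂).toEquiv

theorem cent_prod (x : A × C) : Subgroup.centralizer ({x} : Set (A × C)) =
    (Subgroup.centralizer ({x.1} : Set A)).prod (Subgroup.centralizer ({x.2} : Set C)) := by
  ext y
  rw [Subgroup.mem_prod, Subgroup.mem_centralizer_singleton_iff,
    Subgroup.mem_centralizer_singleton_iff, Subgroup.mem_centralizer_singleton_iff, Prod.ext_iff]
  rfl

theorem defect_TB {B₁ : Set (A → ℂ)} {B₂ : Set (C → ℂ)} (h1 : IsBlock O B₁) (h2 : IsBlock O B₂)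
    {D₁ : Subgroup A} {D₂ : Subgroup C} (hD₁ : IsDefectGroup p O B₁ D₁)
    (hD₂ : IsDefectGroup p O B₂ D₂) : IsDefectGroup p O (TB B₁ B₂) (D₁.prod D₂) := by
  obtain ⟨x₁, hP₁, ho₁, hc₁⟩ := hD₁
  obtain ⟨x₂, hP₂, ho₂, hc₂⟩ := hD₂
  rw [syl_iff] at hP₁ hP₂
  have hred : ∀ z : ℂ, z ∈ O → z ∉ O.nonunits → red O z ≠ 0 := fun z hz hn h0 =>
    hn ((red_eq_zero_iff hz).1 h0)
  refine ⟨(x₁, x₂), ?_, ?_, ?_⟩
  · rw [syl_iff, cent_prod, card_prod_sub, card_prod_sub, hP₁.2, hP₂.2,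
      Nat.factorization_mul Nat.card_pos.ne' Nat.card_pos.ne', Finsupp.add_apply, pow_add]
    refine ⟨Subgroup.prod_mono hP₁.1 hP₂.1, rfl⟩
  · rintro θ ⟨χ, hχ, ψ, hψ, rfl⟩ hcon
    rw [omega_tp] at hcon
    have j1 := (h1.irr χ hχ).omega_mem O x₁
    have j2 := (h2.irr ψ hψ).omega_mem O x₂
    have h3 := red_eq_zero hcon
    rw [red_mul j1 j2] at h3
    rcases mul_eq_zero.1 h3 with h | h
    · exact hred _ j1 (ho₁ χ hχ) h
    · exact hred _ j2 (ho₂ ψ hψ) h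
  · intro hcon
    rw [coeff_TB h1 h2] at hcon
    have j1 := blockCoeff_mem h1 x₁
    have j2 := blockCoeff_mem h2 x₂
    have h3 := red_eq_zero hcon
    rw [red_mul j1 j2] at h3
    rcases mul_eq_zero.1 h3 with h | h
    · exact hred _ j1 hc₁ h
    · exact hred _ j2 hc₂ h

end defect

section trans

/-- irreducibility only depends on the set of the operators -/
theorem irr_transfer {G H V : Type} [Group G] [Group H] [AddCommGroup V] [Module ℂ V]
    (ρ : Representation ℂ G V) (σ : Representation ℂ H V)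
    (h1 : ∀ g, ∃ h, ρ g = σ h) (h2 : ∀ h, ∃ g, σ h = ρ g)
    (hr : ρ.IsIrreducible) : σ.IsIrreducible := by
  let f : Subrepresentation ρ ≃o Subrepresentation σ :=
    { toFun := fun S => ⟨S.toSubmodule, by
        intro h x hx
        obtain ⟨g, e⟩ := h2 h
        rw [e]
        exact S.apply_mem_toSubmodule g hx⟩
      invFun := fun S => ⟨S.toSubmodule, by
        intro g x hx
        obtain ⟨h, e⟩ := h1 g
        rw [e]
        exact S.apply_mem_toSubmodule h hx⟩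
      left_inv := fun S => rfl
      right_inv := fun S => rfl
      map_rel_iff' := by
        intro S S'
        exact Iff.rfl }
  exact (OrderIso.isSimpleOrder_iff f).1 hr

/-- transport along an isomorphism -/
theorem irr_comp {G H : Type} [Group G] [Group H] {χ : G → ℂ} (hχ : IsIrr χ) (e : H ≃* G) :
    IsIrr (fun h => χ (e h)) := by
  obtain ⟨V, _, _, _, ρ, hr, rfl⟩ := hχ
  refine ⟨V, _, _, inferInstance, ρ.comp (e : H →* G), ?_, rfl⟩
  refine irr_transfer ρ _ (fun g => ⟨e.symm g, ?_⟩) (fun h => ⟨e h, rfl⟩) hr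
  change ρ g = ρ (e (e.symm g))
  rw [e.apply_symm_apply]

theorem isConj_equiv {G H : Type} [Group G] [Group H] (e : H ≃* G) (a b : H) :
    IsConj a b ↔ IsConj (e a) (e b) := by
  constructor
  · intro h
    exact (e : H →* G).map_isConj h
  · intro h
    have h1 := (e.symm : G →* H).map_isConj h
    have h2 : ∀ x, (e.symm : G →* H) (e x) = x := fun x => e.symm_apply_apply x
    rwa [h2, h2] at h1

theorem omega_comp {G H : Type} [Group G] [Group H] (χ : G → ℂ) (e : H ≃* G) (a : H) :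
    omega (fun h => χ (e h)) a = omega χ (e a) := by
  unfold omega
  have h1 : Nat.card {y : H // IsConj a y} = Nat.card {y : G // IsConj (e a) y} :=
    Nat.card_congr (e.toEquiv.subtypeEquiv fun y => isConj_equiv e a y)
  rw [h1]
  simp only [map_one]

variable {G H : Type} [Group G] [Group H] (e : H ≃* G) {O : ValuationSubring ℂ}

/-- transport of a set of functions -/
def CB (B : Set (G → ℂ)) : Set (H → ℂ) := (fun χ h => χ (e h)) '' B

theorem block_CB {B : Set (G → ℂ)} (hB : IsBlock O B) : IsBlock O (CB e B) := by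
  obtain ⟨χ₀, h0, rfl⟩ := hB
  refine ⟨fun h => χ₀ (e h), irr_comp h0 e, ?_⟩
  ext θ
  constructor
  · rintro ⟨χ, ⟨hχ, hx⟩, rfl⟩
    refine ⟨irr_comp hχ e, fun x => ?_⟩
    rw [omega_comp, omega_comp]
    exact hx (e x)
  · rintro ⟨hθ, hx⟩
    refine ⟨fun g => θ (e.symm g), ⟨irr_comp hθ e.symm, fun x => ?_⟩, ?_⟩
    · have h1 := hx (e.symm x)
      rw [omega_comp, e.apply_symm_apply] at h1
      rw [omega_comp θ e.symm x]
      exact h1
    · funext h
      change θ (e.symm (e h)) = θ h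
      rw [e.symm_apply_apply]

theorem coeff_CB (B : Set (G → ℂ)) (x : H) : blockCoeff (CB e B) x = blockCoeff B (e x) := by
  unfold blockCoeff CB
  rw [finsum_mem_image, Nat.card_congr e.toEquiv]
  · simp only [map_one, map_inv]
  · intro χ _ χ' _ h
    funext g
    have := congrFun h (e.symm g)
    simpa using this

theorem defect_CB [Finite G] [Finite H] {p : ℕ} [Fact p.Prime] {B : Set (G → ℂ)} {D : Subgroup G}
    (hD : IsDefectGroup p O B D) : IsDefectGroup p O (CB e B) (D.comap (e : H →* G)) := by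
  obtain ⟨x, hP, ho, hc⟩ := hD
  rw [syl_iff] at hP
  have hcent : Subgroup.centralizer ({e.symm x} : Set H) =
      (Subgroup.centralizer ({x} : Set G)).comap (e : H →* G) := by
    ext y
    rw [Subgroup.mem_comap, Subgroup.mem_centralizer_singleton_iff,
      Subgroup.mem_centralizer_singleton_iff]
    change y * e.symm x = e.symm x * y ↔ e y * x = x * e y
    constructor
    · intro h
      have := congrArg e h
      simpa using this
    · intro h
      apply e.injective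
      simpa using h
  have hcard : ∀ D : Subgroup G, Nat.card (D.comap (e : H →* G)) = Nat.card D := by
    intro D
    exact Nat.card_congr (e.toEquiv.subtypeEquiv fun _ => Iff.rfl)
  refine ⟨e.symm x, ?_, ?_, ?_⟩
  · rw [syl_iff, hcent, hcard, hcard]
    exact ⟨Subgroup.comap_mono hP.1, hP.2⟩
  · rintro θ ⟨χ, hχ, rfl⟩
    change omega (fun h => χ (e h)) (e.symm x) ∉ O.nonunits
    rw [omega_comp, e.apply_symm_apply]
    exact ho χ hχ
  · rw [coeff_CB, e.apply_symm_apply]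
    exact hc

end trans

theorem t_PBK : S_PBK := by
  intro p _ O hpO E₁ E₂ _ _ _ _ G₁ G₂ B₁ B₂ h1 h2
  have hPB : PB B₁ B₂ = CB (Subgroup.prodEquiv G₁ G₂) (TB B₁ B₂) := by
    ext θ
    constructor
    · rintro ⟨χ, hχ, ψ, hψ, h⟩
      exact ⟨tp χ ψ, ⟨χ, hχ, ψ, hψ, rfl⟩, (funext h).symm⟩
    · rintro ⟨_, ⟨χ, hχ, ψ, hψ, rfl⟩, rfl⟩
      exact ⟨χ, hχ, ψ, hψ, fun x => rfl⟩
  rw [hPB]
  refine ⟨block_CB _ (block_TB h1 h2), fun D₁ D₂ hD₁ hD₂ hd₁ hd₂ => ?_⟩
  have h3 : (D₁.prod D₂).subgroupOf (G₁.prod G₂) =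
      ((D₁.subgroupOf G₁).prod (D₂.subgroupOf G₂)).comap
        ((Subgroup.prodEquiv G₁ G₂ : (G₁.prod G₂) ≃* G₁ × G₂) : (G₁.prod G₂) →* G₁ × G₂) := by
    ext x
    exact Iff.rfl
  rw [h3]
  exact defect_CB _ (defect_TB h1 h2 hd₁ hd₂)

end Pool.Agent.Q111.OS
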